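import Pool.Agent.Q82.MD.Stm

/-!
# Project MD (helper82), job DUAL: the Legendre transform
-/

set_option autoImplicit false
set_option linter.unusedVariables false

namespace Pool.Agent.Q53.MD

open MeasureTheory Set Filter Topology
open Pool.Agent.W779.Morrey
open Pool.Agent.Q82.MD

/-- a function with supporting affine functions is convex -/
theorem conv_of_support {f : V → ℝ} (h : ∀ p, ∃ x : V, ∀ q, f p + dp x (q - p) ≤ f q) :
    ConvexOn ℝ univ f := by
  refine ⟨convex_univ, fun a _ b _ s t hs ht hst => ?_⟩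
  obtain ⟨x, hx⟩ := h (s • a + t • b)
  have h1 := mul_le_mul_of_nonneg_left (hx a) hs
  have h2 := mul_le_mul_of_nonneg_left (hx b) ht
  have ht' : t = 1 - s := by linarith
  have e : s * (f (s • a + t • b) + dp x (a - (s • a + t • b)))
      + t * (f (s • a + t • b) + dp x (b - (s • a + t • b))) = f (s • a + t • b) := by
    simp only [dp, Pi.sub_apply, Pi.add_apply, Pi.smul_apply, smul_eq_mul]
    rw [ht']
    ring
  simp only [smul_eq_mul]
  linarith

/-- a convex function of one variable below a parabola -/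
theorem conv_one {h : ℝ → ℝ} (hc : ConvexOn ℝ univ h) {a c : ℝ} (hc0 : 0 ≤ c)
    (hle : ∀ t, h t ≤ h 0 - t * a + c * t ^ 2) : h 0 - a ≤ h 1 := by
  by_contra hcon
  push Not at hcon
  set g := h 0 - a - h 1 with hg
  have hg0 : 0 < g := by linarith
  set s := g / (2 * (c + 1)) with hs
  have hs0 : 0 < s := by positivity
  have h1 := hc.2 (mem_univ (-s)) (mem_univ (1 : ℝ)) (show 0 ≤ 1 / (1 + s) by positivity)
    (show 0 ≤ s / (1 + s) by positivity) (by field_simp)
  have e : (1 / (1 + s)) • (-s) + (s / (1 + s)) • (1 : ℝ) = 0 := by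
    simp only [smul_eq_mul]
    field_simp
    ring
  rw [e] at h1
  simp only [smul_eq_mul] at h1
  have h2 := hle (-s)
  have h3 : (1 + s) * h 0 ≤ h (-s) + s * h 1 := by
    have h4 := mul_le_mul_of_nonneg_left h1 (by positivity : 0 ≤ 1 + s)
    have h5 : (1 + s) * (1 / (1 + s) * h (-s) + s / (1 + s) * h 1) = h (-s) + s * h 1 := by
      field_simp
    linarith
  have h4 : s * g ≤ c * s ^ 2 := by
    rw [hg]
    nlinarith
  have h5 : g ≤ c * s := by
    have h6 : s * g ≤ s * (c * s) := by nlinarith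
    exact le_of_mul_le_mul_left h6 hs0
  have h6 : c * s ≤ g / 2 := by
    rw [hs]
    rw [← mul_div_assoc, div_le_div_iff₀ (by positivity) (by norm_num)]
    nlinarith
  linarith

theorem norm_sq_le (y : V) : ‖y‖ ^ 2 ≤ dp y y := by
  have h0 : ‖y‖ ≤ max |y 0| |y 1| := by
    rw [pi_norm_le_iff_of_nonneg (by positivity)]
    intro i
    fin_cases i
    · exact le_max_left _ _
    · exact le_max_right _ _
  have h1 : ‖y‖ ^ 2 ≤ (max |y 0| |y 1|) ^ 2 := pow_le_pow_left₀ (norm_nonneg _) h0 2
  refine h1.trans ?_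
  unfold dp
  rcases max_cases |y 0| |y 1| with ⟨h, -⟩ | ⟨h, -⟩
  · rw [h, sq_abs]
    nlinarith [sq_nonneg (y 1)]
  · rw [h, sq_abs]
    nlinarith [sq_nonneg (y 0)]

/-- a strongly convex function minus a linear form attains its minimum -/
theorem exists_min {δ : ℝ} {φ : V → ℝ} (hδ : 0 < δ)
    (hφ : ConvexOn ℝ univ (fun y => φ y - δ / 2 * dp y y)) (p : V) :
    ∃ x, ∀ y, dp p y - φ y ≤ dp p x - φ x := by
  set h : V → ℝ := fun y => φ y - δ / 2 * dp y y - dp p y with hh
  have hconv : ConvexOn ℝ univ h := by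
    refine ⟨convex_univ, fun a ha b hb s t hs ht hst => ?_⟩
    have h1 := hφ.2 ha hb hs ht hst
    simp only [smul_eq_mul] at h1
    simp only [hh, smul_eq_mul]
    have e : dp p (s • a + t • b) = s * dp p a + t * dp p b := by
      simp only [dp, Pi.add_apply, Pi.smul_apply, smul_eq_mul]
      ring
    rw [e]
    linarith
  have hcont : Continuous h := hconv.locallyLipschitz.continuous
  obtain ⟨C, hC⟩ : ∃ C : ℝ, ∀ y, ‖y‖ ≤ 1 → -C ≤ h y := by
    obtain ⟨x, hx, hmin⟩ := (isCompact_closedBall (0 : V) 1).exists_isMinOn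
      ⟨0, by simp⟩ hcont.continuousOn
    refine ⟨-h x, fun y hy => ?_⟩
    rw [neg_neg]
    exact hmin (by simpa using hy)
  set D : ℝ := |C| + |h 0| with hD
  have hlow : ∀ y, 1 ≤ ‖y‖ → -(D * ‖y‖) ≤ h y := by
    intro y hy
    have hy0 : 0 < ‖y‖ := by linarith
    have h1 := hconv.2 (mem_univ (0 : V)) (mem_univ y) (show 0 ≤ 1 - 1 / ‖y‖ by
        rw [sub_nonneg, div_le_one hy0]
        exact hy) (show 0 ≤ 1 / ‖y‖ by positivity) (by ring)
    rw [smul_zero, zero_add] at h1
    simp only [smul_eq_mul] at h1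
    have h2 := hC ((1 / ‖y‖) • y) (by
      rw [norm_smul, Real.norm_of_nonneg (by positivity)]
      field_simp
      exact le_refl _)
    have h3 : ‖y‖ * (-C) ≤ (‖y‖ - 1) * h 0 + h y := by
      have h4 := mul_le_mul_of_nonneg_left (h2.trans h1) hy0.le
      have h5 : ‖y‖ * ((1 - 1 / ‖y‖) * h 0 + 1 / ‖y‖ * h y) = (‖y‖ - 1) * h 0 + h y := by
        field_simp
      linarith
    have h4 : C ≤ |C| := le_abs_self C
    have h5 : h 0 ≤ |h 0| := le_abs_self _
    have h6 : ‖y‖ * C ≤ ‖y‖ * |C| := mul_le_mul_of_nonneg_left h4 hy0.le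
    have h7 : (‖y‖ - 1) * h 0 ≤ (‖y‖ - 1) * |h 0| :=
      mul_le_mul_of_nonneg_left h5 (by linarith)
    have h8 : (‖y‖ - 1) * |h 0| ≤ ‖y‖ * |h 0| := by
      nlinarith [abs_nonneg (h 0)]
    rw [hD]
    nlinarith
  have hD0 : 0 ≤ D := by positivity
  set u : V → ℝ := fun y => φ y - dp p y with hu
  have hue : ∀ y, u y = h y + δ / 2 * dp y y := fun y => by simp only [hu, hh]; ring
  have hdc : Continuous fun y : V => dp y y := by
    unfold dp
    fun_prop
  have hucont : Continuous u := by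
    have : u = fun y => h y + δ / 2 * dp y y := funext hue
    rw [this]
    exact hcont.add (continuous_const.mul hdc)
  set R : ℝ := max 1 (2 * (D + |u 0|) / δ) with hR
  have hR0 : 0 < R := lt_of_lt_of_le one_pos (le_max_left _ _)
  obtain ⟨x, hx, hmin⟩ := (isCompact_closedBall (0 : V) R).exists_isMinOn
    ⟨0, by simp [hR0.le]⟩ hucont.continuousOn
  refine ⟨x, fun y => ?_⟩
  have hxy : u x ≤ u y := by
    by_cases hy : ‖y‖ ≤ R
    · exact hmin (by simpa using hy)
    · push Not at hy
      have h1 : 1 ≤ ‖y‖ := (le_max_left _ _).trans hy.le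
      have h2 : 2 * (D + |u 0|) / δ ≤ ‖y‖ := (le_max_right _ _).trans hy.le
      have h3 := hlow y h1
      have h4 := norm_sq_le y
      have h5 : 2 * (D + |u 0|) ≤ ‖y‖ * δ := by
        rwa [div_le_iff₀ hδ] at h2
      have h6 : u 0 ≤ |u 0| := le_abs_self _
      have h7 : u x ≤ u 0 := hmin (by simp [hR0.le])
      rw [hue y]
      have h8 : |u 0| ≤ |u 0| * ‖y‖ := le_mul_of_one_le_right (abs_nonneg _) h1
      have h9 : δ / 2 * ‖y‖ ^ 2 ≤ δ / 2 * dp y y := mul_le_mul_of_nonneg_left h4 (by positivity)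
      have h10 : (D + |u 0|) * ‖y‖ ≤ δ / 2 * ‖y‖ ^ 2 := by
        nlinarith
      nlinarith
  simp only [hu] at hxy
  linarith

theorem tens_eq (z ξ : V) : tens z ξ = z 0 • rowm 0 ξ + z 1 • rowm 1 ξ := by
  funext r l
  fin_cases r <;> simp [tens, rowm]

theorem dp_L (L : E →L[ℝ] V) (p z ξ : V) :
    dp p (L (tens z ξ)) = z 0 * dp p (L (rowm 0 ξ)) + z 1 * dp p (L (rowm 1 ξ)) := by
  rw [tens_eq, map_add, map_smul, map_smul]
  simp only [dp, Pi.add_apply, Pi.smul_apply, smul_eq_mul]
  ring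

/-- MD-11 (DUAL). -/
theorem dual : S_DUAL := by
  intro L K δ φ hK hδ hφ hroc
  choose X hX using fun p => exists_min hδ hφ p
  set ψ : V → ℝ := fun p => dp p (X p) - φ (X p) with hψ
  have h1 : ∀ p y, dp p y ≤ φ y + ψ p := by
    intro p y
    have := hX p y
    simp only [hψ]
    linarith
  have hsub : ∀ p z, φ (X p) + dp p (z - X p) ≤ φ z := by
    intro p z
    have := hX p z
    have e : dp p (z - X p) = dp p z - dp p (X p) := by
      simp only [dp, Pi.sub_apply]
      ring
    rw [e]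
    linarith
  -- the upper bound for `φ`
  have hup : ∀ p z ξ : V, dp ξ ξ = 1 →
      φ (X p + L (tens z ξ)) ≤ φ (X p) + dp p (L (tens z ξ)) + K / 2 * dp z z := by
    intro p z ξ hξ
    have hz : 0 ≤ dp z z := add_nonneg (mul_self_nonneg _) (mul_self_nonneg _)
    have hc := hroc (X p) z ξ
    have h2 := conv_one (a := dp p (L (tens z ξ))) (c := K / 2 * dp z z) hc (by positivity) (by
      intro t
      have h3 := hsub p (X p + t • L (tens z ξ))
      have e : dp p (X p + t • L (tens z ξ) - X p) = t * dp p (L (tens z ξ)) := by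
        simp only [dp, Pi.sub_apply, Pi.add_apply, Pi.smul_apply, smul_eq_mul]
        ring
      rw [e] at h3
      simp only [zero_smul, add_zero]
      rw [hξ]
      nlinarith)
    simp only [zero_smul, add_zero, one_smul] at h2
    rw [hξ] at h2
    nlinarith
  have key : ∀ p q ξ : V, dp ξ ξ = 1 →
      ψ p + dp (X p) (q - p) + 1 / (2 * K) * adj2 L ξ (q - p) ≤ ψ q := by
    intro p q ξ hξ
    set z : V := fun r => dp (q - p) (L (rowm r ξ)) / K with hz
    have h2 := hup p z ξ hξ
    have h3 := h1 q (X p + L (tens z ξ))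
    have e1 : dp q (X p + L (tens z ξ)) = dp p (X p) + dp (X p) (q - p)
        + dp (q - p) (L (tens z ξ)) + dp p (L (tens z ξ)) := by
      simp only [dp, Pi.sub_apply, Pi.add_apply]
      ring
    have e2 : dp (q - p) (L (tens z ξ)) = K * dp z z := by
      rw [dp_L]
      have ez0 : dp (q - p) (L (rowm 0 ξ)) = K * z 0 := by
        simp only [hz]
        field_simp
      have ez1 : dp (q - p) (L (rowm 1 ξ)) = K * z 1 := by
        simp only [hz]
        field_simp
      rw [ez0, ez1]
      unfold dp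
      ring
    have e3 : 1 / (2 * K) * adj2 L ξ (q - p) = K / 2 * dp z z := by
      have ez0 : dp (q - p) (L (rowm 0 ξ)) = K * z 0 := by
        simp only [hz]
        field_simp
      have ez1 : dp (q - p) (L (rowm 1 ξ)) = K * z 1 := by
        simp only [hz]
        field_simp
      unfold adj2
      rw [ez0, ez1]
      unfold dp
      field_simp
    rw [e1, e2] at h3
    rw [e3]
    have e4 : ψ p = dp p (X p) - φ (X p) := rfl
    rw [e4]
    linarith
  have hconv : ConvexOn ℝ univ ψ := by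
    refine conv_of_support fun p => ⟨X p, fun q => ?_⟩
    have h2 := key p q ![1, 0] (by simp [dp])
    have h3 : 0 ≤ 1 / (2 * K) * adj2 L ![1, 0] (q - p) := by
      unfold adj2
      positivity
    linarith
  refine ⟨ψ, hconv.locallyLipschitz.continuous, h1, ?_, ?_⟩
  · intro p y hy
    refine le_antisymm (h1 p y) ?_
    have h2 := hy (X p)
    have e : dp p (X p - y) = dp p (X p) - dp p y := by
      simp only [dp, Pi.sub_apply]
      ring
    rw [e] at h2
    simp only [hψ]
    linarith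
  · intro ξ hξ
    refine conv_of_support fun p => ?_
    refine ⟨fun i => X p i - 1 / K * (dp p (L (rowm 0 ξ)) * L (rowm 0 ξ) i
      + dp p (L (rowm 1 ξ)) * L (rowm 1 ξ) i), fun q => ?_⟩
    have h2 := key p q ξ hξ
    have e : 1 / (2 * K) * adj2 L ξ q = 1 / (2 * K) * adj2 L ξ p
        + 1 / K * (dp p (L (rowm 0 ξ)) * dp (q - p) (L (rowm 0 ξ))
          + dp p (L (rowm 1 ξ)) * dp (q - p) (L (rowm 1 ξ)))
        + 1 / (2 * K) * adj2 L ξ (q - p) := by
      simp only [adj2, dp, Pi.sub_apply]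
      field_simp
      ring
    have e2 : dp (fun i => X p i - 1 / K * (dp p (L (rowm 0 ξ)) * L (rowm 0 ξ) i
        + dp p (L (rowm 1 ξ)) * L (rowm 1 ξ) i)) (q - p) = dp (X p) (q - p)
        - 1 / K * (dp p (L (rowm 0 ξ)) * dp (q - p) (L (rowm 0 ξ))
          + dp p (L (rowm 1 ξ)) * dp (q - p) (L (rowm 1 ξ))) := by
      simp only [dp, Pi.sub_apply]
      ring
    rw [e, e2]
    linarith

end Pool.Agent.Q53.MD
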