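import Pool.Agent.Q82.MD.Stm
import Pool.Agent.Q223.MD.KS

/-!
# Project MD (helper82), job JOINT: the joint functional of the gradient and the dual variable
-/

set_option autoImplicit false
set_option linter.unusedVariables false

namespace Pool.Agent.Q53.MD

open MeasureTheory Set Filter Topology
open Pool.Agent.W779.Morrey
open Pool.Agent.Q82.MD
open Pool.Agent.Q223.MD (hs_W ed_W un E_eq m_eq GG GG_apply cont_GG)

/-- the quadratic part -/
noncomputable def qJ (L : E →L[ℝ] V) (K : ℝ) : (E × V) →L[ℝ] (E × V) →L[ℝ] ℝ :=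
  LinearMap.toContinuousBilinearMap
  (LinearMap.mk₂ ℝ (fun x x' : E × V => K / 2 * (x.1 0 0 * x'.1 0 0 + x.1 0 1 * x'.1 0 1
      + x.1 1 0 * x'.1 1 0 + x.1 1 1 * x'.1 1 1) - dp x'.2 (L x.1))
    (fun x y z => by simp only [dp, Prod.fst_add, map_add, Pi.add_apply]; ring)
    (fun c x z => by
      simp only [dp, Prod.smul_fst, map_smul, Pi.smul_apply, smul_eq_mul]; ring)
    (fun x y z => by simp only [dp, Prod.fst_add, Prod.snd_add, Pi.add_apply]; ring)
    (fun c x z => by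
      simp only [dp, Prod.smul_fst, Prod.smul_snd, Pi.smul_apply, smul_eq_mul]; ring))

theorem qJ_apply (L : E →L[ℝ] V) (K : ℝ) (x x' : E × V) : qJ L K x x' =
    K / 2 * (x.1 0 0 * x'.1 0 0 + x.1 0 1 * x'.1 0 1
      + x.1 1 0 * x'.1 1 0 + x.1 1 1 * x'.1 1 1) - dp x'.2 (L x.1) := rfl

/-- the constant form -/
noncomputable def tJ (L : E →L[ℝ] V) (K : ℝ) : (E × V) →L[ℝ] (E × V) →L[ℝ] ℝ :=
  LinearMap.toContinuousBilinearMap
  (LinearMap.mk₂ ℝ (fun x x' : E × V => 2 * K * (x.1 0 0 * x'.1 0 1 + x.1 1 0 * x'.1 1 1)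
      + 2 * (x.1 0 1 * dp x'.2 (L (un 0 0)) - x.1 0 0 * dp x'.2 (L (un 0 1))
        + x.1 1 1 * dp x'.2 (L (un 1 0)) - x.1 1 0 * dp x'.2 (L (un 1 1))))
    (fun x y z => by simp only [dp, Prod.fst_add, Pi.add_apply]; ring)
    (fun c x z => by
      simp only [dp, Prod.smul_fst, Pi.smul_apply, smul_eq_mul]; ring)
    (fun x y z => by simp only [dp, Prod.fst_add, Prod.snd_add, Pi.add_apply]; ring)
    (fun c x z => by
      simp only [dp, Prod.smul_fst, Prod.smul_snd, Pi.smul_apply, smul_eq_mul]; ring))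

theorem tJ_apply (L : E →L[ℝ] V) (K : ℝ) (x x' : E × V) : tJ L K x x' =
    2 * K * (x.1 0 0 * x'.1 0 1 + x.1 1 0 * x'.1 1 1)
      + 2 * (x.1 0 1 * dp x'.2 (L (un 0 0)) - x.1 0 0 * dp x'.2 (L (un 0 1))
        + x.1 1 1 * dp x'.2 (L (un 1 0)) - x.1 1 0 * dp x'.2 (L (un 1 1))) := rfl

/-- the correction -/
noncomputable def sJ (L : E →L[ℝ] V) (K : ℝ) : (V × V) →L[ℝ] (V × V) →L[ℝ] ℝ :=
  LinearMap.toContinuousBilinearMap
  (LinearMap.mk₂ ℝ (fun x x' : V × V => -(1 / (2 * K)) *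
      ((dp x.1 (L (un 0 0)) + dp x.2 (L (un 0 1))) * (dp x'.1 (L (un 0 0)) + dp x'.2 (L (un 0 1)))
      + (dp x.1 (L (un 1 0)) + dp x.2 (L (un 1 1)))
        * (dp x'.1 (L (un 1 0)) + dp x'.2 (L (un 1 1)))))
    (fun x y z => by simp only [dp, Prod.fst_add, Prod.snd_add, Pi.add_apply]; ring)
    (fun c x z => by
      simp only [dp, Prod.smul_fst, Prod.smul_snd, Pi.smul_apply, smul_eq_mul]; ring)
    (fun x y z => by simp only [dp, Prod.fst_add, Prod.snd_add, Pi.add_apply]; ring)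
    (fun c x z => by
      simp only [dp, Prod.smul_fst, Prod.smul_snd, Pi.smul_apply, smul_eq_mul]; ring))

theorem sJ_apply (L : E →L[ℝ] V) (K : ℝ) (x x' : V × V) : sJ L K x x' = -(1 / (2 * K)) *
      ((dp x.1 (L (un 0 0)) + dp x.2 (L (un 0 1))) * (dp x'.1 (L (un 0 0)) + dp x'.2 (L (un 0 1)))
      + (dp x.1 (L (un 1 0)) + dp x.2 (L (un 1 1)))
        * (dp x'.1 (L (un 1 0)) + dp x'.2 (L (un 1 1)))) := rfl

theorem rowm_eq (r : Fin 2) (ξ : V) : rowm r ξ = ξ 0 • un r 0 + ξ 1 • un r 1 := by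
  funext i l
  fin_cases r <;> fin_cases i <;> fin_cases l <;> simp [rowm, un]

theorem adj2_eq (L : E →L[ℝ] V) (ξ p : V) : adj2 L ξ p =
    (ξ 0 * dp p (L (un 0 0)) + ξ 1 * dp p (L (un 0 1))) ^ 2
      + (ξ 0 * dp p (L (un 1 0)) + ξ 1 * dp p (L (un 1 1))) ^ 2 := by
  unfold adj2
  rw [rowm_eq, rowm_eq]
  simp only [map_add, map_smul, dp, Pi.add_apply, Pi.smul_apply, smul_eq_mul]
  ring

theorem hnorm (p ξ : V) : ‖((ξ 0 • p, ξ 1 • p) : V × V)‖ ^ 2 ≤ dp ξ ξ * dp p p := by
  have e1 : ‖p‖ ^ 2 ≤ dp p p := by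
    have e2 : ‖p‖ ≤ Real.sqrt (dp p p) := by
      refine (pi_norm_le_iff_of_nonneg (Real.sqrt_nonneg _)).2 fun i => ?_
      apply Real.abs_le_sqrt
      unfold dp
      fin_cases i
      · show p 0 ^ 2 ≤ _
        nlinarith [mul_self_nonneg (p 1)]
      · show p 1 ^ 2 ≤ _
        nlinarith [mul_self_nonneg (p 0)]
    have e3 : 0 ≤ dp p p := by
      unfold dp
      nlinarith [mul_self_nonneg (p 0), mul_self_nonneg (p 1)]
    calc ‖p‖ ^ 2 ≤ Real.sqrt (dp p p) ^ 2 := pow_le_pow_left₀ (norm_nonneg _) e2 2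
      _ = dp p p := Real.sq_sqrt e3
  have e4 : (0 : ℝ) ≤ dp p p := (sq_nonneg _).trans e1
  rw [Prod.norm_def]
  simp only [norm_smul, Real.norm_eq_abs]
  rcases max_choice (|ξ 0| * ‖p‖) (|ξ 1| * ‖p‖) with h | h
  · rw [h, mul_pow, sq_abs]
    unfold dp at e4 e1 ⊢
    nlinarith [mul_self_nonneg (ξ 1), mul_self_nonneg (ξ 0),
      mul_nonneg (mul_self_nonneg (ξ 1)) e4, mul_le_mul_of_nonneg_left e1 (mul_self_nonneg (ξ 0))]
  · rw [h, mul_pow, sq_abs]
    unfold dp at e4 e1 ⊢
    nlinarith [mul_self_nonneg (ξ 1), mul_self_nonneg (ξ 0),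
      mul_nonneg (mul_self_nonneg (ξ 0)) e4, mul_le_mul_of_nonneg_left e1 (mul_self_nonneg (ξ 1))]

section fam

variable {ι ι' : Type} [Fintype ι] [Fintype ι']

theorem fam_eq (k : ι → Fin 2 → ℤ) (c d : ι → E) (k' : ι' → Fin 2 → ℤ) (A B : ι' → V) (s : ℝ)
    (x : V) : FamG (Sum.elim k k') (Sum.elim (fun i => ((c i, 0) : E × V)) fun i => (0, A i))
      (Sum.elim (fun i => ((d i, 0) : E × V)) fun i => (0, B i)) s x =
      (Fam k c d s x, FamG k' A B s x) := by
  unfold FamG Fam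
  rw [Fintype.sum_sum_type]
  refine Prod.ext ?_ ?_
  · simp [Prod.fst_sum, tmG, tm]
  · simp [Prod.snd_sum, tmG, tm]

theorem fam_adm (k : ι → Fin 2 → ℤ) (c d : ι → V) (k' : ι' → Fin 2 → ℤ) (A B : ι' → V) (s : ℝ)
    (x : V) (r : Fin 2) :
    (dFamG (Sum.elim k k') (Sum.elim (fun i => ((grk k c i, 0) : E × V)) fun i => (0, A i))
      (Sum.elim (fun i => ((grk k d i, 0) : E × V)) fun i => (0, B i)) 0 s x).1 r 1 =
    (dFamG (Sum.elim k k') (Sum.elim (fun i => ((grk k c i, 0) : E × V)) fun i => (0, A i))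
      (Sum.elim (fun i => ((grk k d i, 0) : E × V)) fun i => (0, B i)) 1 s x).1 r 0 := by
  have key : ∀ j : Fin 2, dFamG (Sum.elim k k')
      (Sum.elim (fun i => ((grk k c i, 0) : E × V)) fun i => (0, A i))
      (Sum.elim (fun i => ((grk k d i, 0) : E × V)) fun i => (0, B i)) j s x =
      (Fam k (fun i => (2 * Real.pi * k i j) • grk k d i)
        (fun i => -((2 * Real.pi * k i j) • grk k c i)) s x,
      FamG k' (fun i => (2 * Real.pi * k' i j) • B i)
        (fun i => -((2 * Real.pi * k' i j) • A i)) s x) := by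
    intro j
    rw [← fam_eq]
    unfold dFamG
    congr 1
    · funext i
      rcases i with i | i <;> simp
    · funext i
      rcases i with i | i <;> simp
  rw [key, key]
  simp only [Fam, Finset.sum_apply, Pi.smul_apply, tm, Pi.add_apply, Pi.neg_apply, grk,
    smul_eq_mul]
  refine Finset.sum_congr rfl fun i _ => ?_
  ring

end fam

/-- MD-13 (JOINT). -/
theorem joint : S_FLOWG → S_FORM → S_JOINT := by
  intro hflow hform L K ψ η hK hη hψ hyp ι ι' _ _ k c d k' A B F₀ p₀ hk'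
  have h2 : ContDiff ℝ 1 (fderiv ℝ ψ) := hψ.fderiv_right (by norm_num)
  have h3 : Continuous (fderiv ℝ (fderiv ℝ ψ)) := h2.continuous_fderiv (by norm_num)
  have hsy : ∀ y a b, fderiv ℝ (fderiv ℝ ψ) y a b = fderiv ℝ (fderiv ℝ ψ) y b a := by
    intro y a b
    have h4 : IsSymmSndFDerivAt ℝ ψ y := hψ.contDiffAt.isSymmSndFDerivAt (by simp)
    exact h4 a b
  set G : V → (V × V) →L[ℝ] (V × V) →L[ℝ] ℝ := fun y =>
    GG (fderiv ℝ (fderiv ℝ ψ) y) (ContinuousLinearMap.fst ℝ V V)
      (ContinuousLinearMap.snd ℝ V V) (sJ L K) with hG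
  have hGa : ∀ y x x', G y x x' = fderiv ℝ (fderiv ℝ ψ) y x.1 x'.1 +
      fderiv ℝ (fderiv ℝ ψ) y x.2 x'.2 + (sJ L K x x' + sJ L K x' x) := by
    intro y x x'
    rw [hG]
    simp only [GG_apply, ContinuousLinearMap.coe_fst', ContinuousLinearMap.coe_snd']
  have hGc := cont_GG h3 (ContinuousLinearMap.fst ℝ V V) (ContinuousLinearMap.snd ℝ V V) (sJ L K)
  have hdiag : ∀ (y p ξ : V), G y (ξ 0 • p, ξ 1 • p) (ξ 0 • p, ξ 1 • p) =
      dp ξ ξ * fderiv ℝ (fderiv ℝ ψ) y p p - 1 / K * adj2 L ξ p := by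
    intro y p ξ
    rw [hGa, sJ_apply, adj2_eq]
    simp only [map_smul, _root_.smul_apply, smul_eq_mul, dp, Pi.smul_apply]
    field_simp
    ring
  have hpos : ∀ (y p ξ : V), 0 < dp ξ ξ →
      η * (dp ξ ξ * dp p p) ≤ G y (ξ 0 • p, ξ 1 • p) (ξ 0 • p, ξ 1 • p) := by
    intro y p ξ hξ
    rw [hdiag]
    set N : ℝ := dp ξ ξ with hN
    have hs0 : 0 < Real.sqrt N := Real.sqrt_pos.2 hξ
    have hss : Real.sqrt N * Real.sqrt N = N := Real.mul_self_sqrt hξ.le
    have h5 := hyp y ((1 / Real.sqrt N) • ξ) p (by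
      have e : dp ((1 / Real.sqrt N) • ξ) ((1 / Real.sqrt N) • ξ) =
          N / (Real.sqrt N * Real.sqrt N) := by
        generalize Real.sqrt N = w at hs0
        rw [hN]
        simp only [dp, Pi.smul_apply, smul_eq_mul]
        field_simp
      rw [e, hss, div_self hξ.ne'])
    have e2 : adj2 L ((1 / Real.sqrt N) • ξ) p = adj2 L ξ p / N := by
      have e2' : adj2 L ((1 / Real.sqrt N) • ξ) p =
          adj2 L ξ p / (Real.sqrt N * Real.sqrt N) := by
        generalize Real.sqrt N = w at hs0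
        rw [adj2_eq, adj2_eq]
        simp only [Pi.smul_apply, smul_eq_mul]
        field_simp
      rw [e2', hss]
    rw [e2] at h5
    unfold hs at h5
    have h6 := mul_le_mul_of_nonneg_left h5 hξ.le
    have e3 : N * (η * dp p p + 1 / K * (adj2 L ξ p / N)) =
        η * (N * dp p p) + 1 / K * adj2 L ξ p := by
      field_simp
    rw [e3] at h6
    linarith
  obtain ⟨θ₀, hθ₀, hθ⟩ := hform (V × V) G (ContinuousLinearMap.fst ℝ V V)
    (ContinuousLinearMap.snd ℝ V V) η hGc (by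
      intro y x x'
      rw [hGa, hGa, hsy y x.1 x'.1, hsy y x.2 x'.2]
      ring)
    ⟨(![1, 0], ![0, 1]), by
      rw [ContinuousLinearMap.coe_fst', ContinuousLinearMap.coe_snd']
      simp [wd]⟩
    ⟨(![0, 1], ![1, 0]), by
      rw [ContinuousLinearMap.coe_fst', ContinuousLinearMap.coe_snd']
      simp [wd]⟩ hη (by
      rintro y ⟨u, v⟩ hw
      rw [ContinuousLinearMap.coe_fst', ContinuousLinearMap.coe_snd'] at hw
      simp only [wd] at hw
      by_cases hu : u = 0
      · subst hu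
        have e1 := hpos y v ![0, 1] (by simp [dp])
        have e2 := hnorm v ![0, 1]
        have e3 : (((![0, 1] : V) 0 • v, (![0, 1] : V) 1 • v) : V × V) = (0, v) := by simp
        rw [e3] at e1 e2
        exact (mul_le_mul_of_nonneg_left e2 hη.le).trans e1
      · have hupos : 0 < u 0 * u 0 + u 1 * u 1 := by
          by_contra hneg
          push Not at hneg
          apply hu
          have a0 := mul_self_nonneg (u 0)
          have a1 := mul_self_nonneg (u 1)
          have b0 : u 0 = 0 := mul_self_eq_zero.1 (le_antisymm (by linarith) a0)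
          have b1 : u 1 = 0 := mul_self_eq_zero.1 (le_antisymm (by linarith) a1)
          funext i
          fin_cases i
          · exact b0
          · exact b1
        set t : ℝ := (u 0 * v 0 + u 1 * v 1) / (u 0 * u 0 + u 1 * u 1) with ht
        have e1 := hpos y u ![1, t] (by simp [dp]; nlinarith [mul_self_nonneg t])
        have e2 := hnorm u ![1, t]
        have e3 : (((![1, t] : V) 0 • u, (![1, t] : V) 1 • u) : V × V) = (u, v) := by
          refine Prod.ext ?_ ?_
          · simp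
          · funext i
            have hu0 := hupos.ne'
            fin_cases i
            · show t * u 0 = v 0
              rw [ht, div_mul_eq_mul_div, div_eq_iff hu0]
              linear_combination (u 1) * hw
            · show t * u 1 = v 1
              rw [ht, div_mul_eq_mul_div, div_eq_iff hu0]
              linear_combination (-(u 0)) * hw
        rw [e3] at e1 e2
        exact (mul_le_mul_of_nonneg_left e2 hη.le).trans e1)
  set W : E × V → ℝ := fun z => ψ (ContinuousLinearMap.snd ℝ E V z) + qJ L K z z with hW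
  have hWe : ∀ (F : E) (P : V), W (F, P) = K / 2 * nn F - dp P (L F) + ψ P := by
    intro F P
    rw [hW]
    simp only [qJ_apply, ContinuousLinearMap.coe_snd', nn]
    ring
  have hWC : ContDiff ℝ 2 W := by
    rw [hW]
    refine (hψ.comp (ContinuousLinearMap.snd ℝ E V).contDiff).add ?_
    exact (qJ L K).contDiff.clm_apply contDiff_id
  set θ : E × V → (E × V) →L[ℝ] ℝ := fun z => tJ L K z +
    (θ₀ (ContinuousLinearMap.snd ℝ E V z)).comp (ContinuousLinearMap.snd ℝ E V) with hθd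
  have hθC : ContDiff ℝ 1 θ := by
    rw [hθd]
    refine (tJ L K).contDiff.add ?_
    exact (hθ₀.comp (ContinuousLinearMap.snd ℝ E V).contDiff).clm_comp contDiff_const
  have hmain := hflow (E × V) W θ (fun G₀ G₁ => ∀ r, G₀.1 r 1 = G₁.1 r 0) hWC hθC (by
    intro F G₀ G₁ hsym
    unfold hs ed
    rw [hW, hθd, hs_W hψ, hs_W hψ, ed_W hθ₀, ed_W hθ₀]
    have h8 := hθ (ContinuousLinearMap.snd ℝ E V F)
      (ContinuousLinearMap.snd ℝ E V G₀, ContinuousLinearMap.snd ℝ E V G₁)
    rw [hGa, sJ_apply, ContinuousLinearMap.coe_fst', ContinuousLinearMap.coe_snd'] at h8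
    unfold ed at h8
    simp only [ContinuousLinearMap.coe_snd'] at h8 ⊢
    have s0 := hsym 0
    have s1 := hsym 1
    have h9 : 0 ≤ 1 / K * ((K * (G₀.1 0 0 + G₁.1 0 1) - (dp G₀.2 (L (un 0 0))
        + dp G₁.2 (L (un 0 1)))) ^ 2 + (K * (G₀.1 1 0 + G₁.1 1 1) - (dp G₀.2 (L (un 1 0))
        + dp G₁.2 (L (un 1 1)))) ^ 2) := by positivity
    refine (add_nonneg h8 h9).trans (le_of_eq ?_)
    simp only [qJ_apply, tJ_apply, dp, m_eq L G₀.1, m_eq L G₁.1, s0, s1]
    field_simp
    ring) (ι ⊕ ι') (Sum.elim k k') (Sum.elim (fun i => ((grk k c i, 0) : E × V)) fun i => (0, A i))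
      (Sum.elim (fun i => ((grk k d i, 0) : E × V)) fun i => (0, B i)) (F₀, p₀) (by
    rintro (i | i) hi
    · obtain ⟨h0, h1⟩ := nk_eq_zero hi
      have hk : ∀ l, (k i l : ℝ) = 0 := by
        intro l
        fin_cases l
        · simpa using h0
        · simpa using h1
      have hg : ∀ c : ι → V, grk k c i = 0 := by
        intro c
        funext r l
        simp [grk, hk]
      simp only [Sum.elim_inl, hg]
      exact ⟨rfl, rfl⟩
    · exfalso
      obtain ⟨h0, h1⟩ := nk_eq_zero hi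
      apply hk' i
      funext l
      fin_cases l
      · exact h0
      · exact h1) (fun s x r => fam_adm k c d k' A B s x r)
  rw [hWe] at hmain
  refine hmain.trans (le_of_eq ?_)
  refine integral_congr_ae (Eventually.of_forall fun x => ?_)
  simp only
  rw [fam_eq]
  exact hWe _ _

end Pool.Agent.Q53.MD
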